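import Pool.Agent.H107.MetricFam

/-! Objects with integer coordinates in residue classes modulo powers of a prime: almost every vector `α` of `p`-adic
integers has the property that for all large `T` no member of a given sparse set with coordinates at most `T` in absolute
value satisfies `|t - α|_p ≤ T ^ (-σ)`. The version for tuples of natural numbers is in `Pool.Agent.H223.PS.Engine`; here
the objects are arbitrary, with integer coordinates of both signs, and the family is indexed by any countable type. -/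

set_option autoImplicit false

open MeasureTheory Filter Topology

namespace Pool.Agent.V1172.PW

/-- the coordinates of `t` are at most `T` and `p`-adically close to `α` -/
def Near (p : ℕ) [Fact p.Prime] {k : ℕ} (σ T : ℝ) (α : Fin k → ℤ_[p]) (t : Fin k → ℤ) : Prop :=
  ∀ i, |(t i : ℝ)| ≤ T ∧ ‖(t i : ℤ_[p]) - α i‖ ≤ T ^ (-σ)

theorem family (p : ℕ) [Fact p.Prime] {k : ℕ} {P : Type*} (co : P → Fin k → ℤ) {ι : Type*} [Countable ι]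
    (Bad : ι → Set P) {s : ℝ} (hs : 0 ≤ s)
    (h : ∀ j, ∀ ε : ℝ, 0 < ε → ∃ C : ℝ, ∀ X : ℝ, 1 ≤ X → {t : P | (∀ i, |(co t i : ℝ)| ≤ X) ∧ t ∈ Bad j}.Finite ∧
      ({t : P | (∀ i, |(co t i : ℝ)| ≤ X) ∧ t ∈ Bad j}.ncard : ℝ) ≤ C * X ^ (s + ε)) {σ : ℝ} (hσ : 0 < σ) :
    ∃ E : Set (Fin k → ℤ_[p]), dimH E ≤ ENNReal.ofReal (s / σ) ∧ ∀ α ∉ E, ∀ j, ∃ T₀ : ℝ, ∀ T ≥ T₀, ∀ t : P,
      Near p σ T α (co t) → t ∉ Bad j := by
  classical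
  set φ : P → (Fin k → ℤ_[p]) := fun t i => ((co t i : ℤ) : ℤ_[p]) with hφ
  set ht : P → ℝ := fun t => max 1 ‖fun i => (co t i : ℝ)‖ with hht
  obtain ⟨E, hE1, hE2⟩ := Pool.Agent.H107.ME.dim_family φ ht (fun t => le_max_left _ _) hs hσ Bad (fun j ε hε => by
      obtain ⟨C, hC⟩ := h j ε hε
      refine ⟨C, fun X hX => ?_⟩
      obtain ⟨g1, g2⟩ := hC X hX
      have hsub : {t | t ∈ Bad j ∧ ht t ≤ X} ⊆ {t : P | (∀ i, |(co t i : ℝ)| ≤ X) ∧ t ∈ Bad j} := by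
        rintro t ⟨a, b⟩
        refine ⟨fun i => ?_, a⟩
        have h1 := norm_le_pi_norm (fun i => (co t i : ℝ)) i
        rw [Real.norm_eq_abs] at h1
        exact h1.trans ((le_max_right _ _).trans b)
      refine ⟨g1.subset hsub, le_trans ?_ g2⟩
      exact_mod_cast Set.ncard_le_ncard hsub g1)
  have hcount : (Set.range φ).Countable := by
    refine (Set.countable_range (fun t : Fin k → ℤ => fun i => ((t i : ℤ) : ℤ_[p]))).mono ?_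
    rintro x ⟨t, rfl⟩
    exact ⟨co t, rfl⟩
  refine ⟨E ∪ Set.range φ, ?_, fun α hα j => ?_⟩
  · rw [dimH_union, hcount.dimH_zero]
    exact max_le hE1 bot_le
  rw [Set.mem_union, not_or] at hα
  have hfin := hE2 α hα.1 j
  have hne : ∀ t ∈ {t | t ∈ Bad j ∧ dist (φ t) α ≤ (ht t) ^ (-σ)}, ∀ᶠ T : ℝ in atTop, T ^ (-σ) < dist (φ t) α := by
    intro t _
    have h1 : 0 < dist (φ t) α := dist_pos.2 fun h2 => hα.2 ⟨t, h2⟩
    exact (tendsto_rpow_neg_atTop hσ).eventually (gt_mem_nhds h1)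
  obtain ⟨T₀, hT₀⟩ := eventually_atTop.1 ((Filter.eventually_all_finite hfin).2 hne)
  refine ⟨max T₀ 1, fun T hT t htT hexc => ?_⟩
  have hT1 : 1 ≤ T := (le_max_right _ _).trans hT
  have hT0 : 0 < T := by linarith
  have hdist : dist (φ t) α ≤ T ^ (-σ) := by
    rw [dist_pi_le_iff (Real.rpow_nonneg hT0.le _)]
    intro i
    rw [dist_eq_norm]
    exact (htT i).2
  have hle : ht t ≤ T := by
    refine max_le hT1 ?_
    rw [pi_norm_le_iff_of_nonneg hT0.le]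
    intro i
    rw [Real.norm_eq_abs]
    exact (htT i).1
  have hmem : t ∈ {t | t ∈ Bad j ∧ dist (φ t) α ≤ (ht t) ^ (-σ)} :=
    ⟨hexc, hdist.trans (Real.rpow_le_rpow_of_nonpos (lt_of_lt_of_le one_pos (le_max_left _ _)) hle (by linarith))⟩
  have h3 := hT₀ T ((le_max_left _ _).trans hT) t hmem
  linarith

/-- integers -/
theorem ints (p : ℕ) [Fact p.Prime] {ι : Type*} [Countable ι] (Bad : ι → Set ℤ) {s : ℝ} (hs : 0 ≤ s)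
    (h : ∀ j, ∀ ε : ℝ, 0 < ε → ∃ C : ℝ, ∀ X : ℝ, 1 ≤ X → {t : ℤ | t ∈ Bad j ∧ |(t : ℝ)| ≤ X}.Finite ∧
      ({t : ℤ | t ∈ Bad j ∧ |(t : ℝ)| ≤ X}.ncard : ℝ) ≤ C * X ^ (s + ε)) {σ : ℝ} (hσ : 0 < σ) :
    ∃ E : Set ℤ_[p], dimH E ≤ ENNReal.ofReal (s / σ) ∧ ∀ α ∉ E, ∀ j, ∃ T₀ : ℝ, ∀ T ≥ T₀, ∀ t : ℤ,
      |(t : ℝ)| ≤ T → ‖(t : ℤ_[p]) - α‖ ≤ T ^ (-σ) → t ∉ Bad j := by
  classical
  set φ : ℤ → ℤ_[p] := fun t => (t : ℤ_[p]) with hφ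
  set ht : ℤ → ℝ := fun t => max 1 |(t : ℝ)| with hht
  obtain ⟨E, hE1, hE2⟩ := Pool.Agent.H107.ME.dim_family φ ht (fun t => le_max_left _ _) hs hσ Bad (fun j ε hε => by
      obtain ⟨C, hC⟩ := h j ε hε
      refine ⟨C, fun X hX => ?_⟩
      obtain ⟨g1, g2⟩ := hC X hX
      have hsub : {t | t ∈ Bad j ∧ ht t ≤ X} ⊆ {t : ℤ | t ∈ Bad j ∧ |(t : ℝ)| ≤ X} := by
        rintro t ⟨a, b⟩
        exact ⟨a, (le_max_right _ _).trans b⟩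
      refine ⟨g1.subset hsub, le_trans ?_ g2⟩
      exact_mod_cast Set.ncard_le_ncard hsub g1)
  refine ⟨E ∪ Set.range φ, ?_, fun α hα j => ?_⟩
  · rw [dimH_union, (Set.countable_range φ).dimH_zero]
    exact max_le hE1 bot_le
  rw [Set.mem_union, not_or] at hα
  have hfin := hE2 α hα.1 j
  have hne : ∀ t ∈ {t | t ∈ Bad j ∧ dist (φ t) α ≤ (ht t) ^ (-σ)}, ∀ᶠ T : ℝ in atTop, T ^ (-σ) < dist (φ t) α := by
    intro t _
    have h1 : 0 < dist (φ t) α := dist_pos.2 fun h2 => hα.2 ⟨t, h2⟩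
    exact (tendsto_rpow_neg_atTop hσ).eventually (gt_mem_nhds h1)
  obtain ⟨T₀, hT₀⟩ := eventually_atTop.1 ((Filter.eventually_all_finite hfin).2 hne)
  refine ⟨max T₀ 1, fun T hT t htT htα hexc => ?_⟩
  have hT1 : 1 ≤ T := (le_max_right _ _).trans hT
  have hT0 : 0 < T := by linarith
  have hmem : t ∈ {t | t ∈ Bad j ∧ dist (φ t) α ≤ (ht t) ^ (-σ)} := by
    refine ⟨hexc, ?_⟩
    rw [dist_eq_norm]
    exact htα.trans (Real.rpow_le_rpow_of_nonpos (lt_of_lt_of_le one_pos (le_max_left _ _)) (max_le hT1 htT)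
      (by linarith))
  have h3 := hT₀ T ((le_max_left _ _).trans hT) t hmem
  rw [dist_eq_norm] at h3
  linarith

/-- natural numbers, a countable family, counts without finiteness -/
theorem nats (p : ℕ) [Fact p.Prime] {ι : Type*} [Countable ι] (Bad : ι → Set ℕ) {s : ℝ} (hs : 0 ≤ s)
    (h : ∀ j, ∃ C : ℝ, ∀ X : ℝ, 1 ≤ X → ({t : ℕ | t ∈ Bad j ∧ (t : ℝ) ≤ X}.ncard : ℝ) ≤ C * X ^ s)
    {σ : ℝ} (hσ : 0 < σ) :
    ∃ E : Set ℤ_[p], dimH E ≤ ENNReal.ofReal (s / σ) ∧ ∀ α ∉ E, ∀ j, ∃ T₀ : ℝ, ∀ T ≥ T₀, ∀ t : ℕ,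
      (t : ℝ) ≤ T → ‖(t : ℤ_[p]) - α‖ ≤ T ^ (-σ) → t ∉ Bad j := by
  have hfin0 : ∀ X : ℝ, {t : ℕ | (t : ℝ) ≤ X}.Finite := fun X =>
    (Set.finite_Icc 0 ⌊X⌋₊).subset fun t ht => ⟨Nat.zero_le _, Nat.le_floor ht⟩
  obtain ⟨E, hE, h2⟩ := ints p (fun j => (fun t : ℕ => (t : ℤ)) '' Bad j) hs (fun j ε hε => by
    obtain ⟨C, hC⟩ := h j
    refine ⟨|C|, fun X hX => ?_⟩
    have hsub : {t : ℤ | t ∈ (fun t : ℕ => (t : ℤ)) '' Bad j ∧ |(t : ℝ)| ≤ X} ⊆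
        (fun t : ℕ => (t : ℤ)) '' {t : ℕ | t ∈ Bad j ∧ (t : ℝ) ≤ X} := by
      rintro t ⟨⟨u, hu, rfl⟩, h1⟩
      refine ⟨u, ⟨hu, ?_⟩, rfl⟩
      simpa using h1
    have hf : {t : ℕ | t ∈ Bad j ∧ (t : ℝ) ≤ X}.Finite := (hfin0 X).subset fun t ht => ht.2
    refine ⟨(hf.image _).subset hsub, ?_⟩
    have h3 := (Set.ncard_le_ncard hsub (hf.image _)).trans (Set.ncard_image_le hf)
    calc _ ≤ (({t : ℕ | t ∈ Bad j ∧ (t : ℝ) ≤ X}.ncard : ℕ) : ℝ) := by exact_mod_cast h3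
      _ ≤ C * X ^ s := hC X hX
      _ ≤ |C| * X ^ s := mul_le_mul_of_nonneg_right (le_abs_self C) (Real.rpow_nonneg (by linarith) _)
      _ ≤ |C| * X ^ (s + ε) := mul_le_mul_of_nonneg_left
          (Real.rpow_le_rpow_of_exponent_le hX (by linarith)) (abs_nonneg C)) hσ
  refine ⟨E, hE, fun α hα j => ?_⟩
  obtain ⟨T₀, hT⟩ := h2 α hα j
  refine ⟨T₀, fun T hT1 t ht1 ht2 hb => hT T hT1 (t : ℤ) ?_ ?_ ⟨t, hb, rfl⟩⟩
  · simpa using ht1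
  · simpa using ht2

/-- integral vectors, counts in the cubes with the centre `0` -/
theorem boxes (p : ℕ) [Fact p.Prime] {k : ℕ} {ι : Type*} [Countable ι] (Bad : ι → (Fin k → ℤ) → Prop) {s : ℝ}
    (hs : 0 ≤ s)
    (h : ∀ j, ∀ ε : ℝ, 0 < ε → ∃ C : ℝ, ∀ H : ℕ, 1 ≤ H →
      ({c : Fin k → ℤ | (∀ i, |c i| ≤ (H : ℤ)) ∧ Bad j c}.ncard : ℝ) ≤ C * (H : ℝ) ^ (s + ε)) {σ : ℝ} (hσ : 0 < σ) :
    ∃ E : Set (Fin k → ℤ_[p]), dimH E ≤ ENNReal.ofReal (s / σ) ∧ ∀ α ∉ E, ∀ j, ∃ T₀ : ℝ, ∀ T ≥ T₀, ∀ t : Fin k → ℤ,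
      (∀ i, |(t i : ℝ)| ≤ T ∧ ‖(t i : ℤ_[p]) - α i‖ ≤ T ^ (-σ)) → ¬ Bad j t := by
  classical
  refine family p (fun t : Fin k → ℤ => t) (fun j => {c | Bad j c}) hs (fun j ε hε => ?_) hσ
  obtain ⟨C, hC⟩ := h j ε hε
  refine ⟨|C|, fun X hX => ?_⟩
  have hfl : 1 ≤ ⌊X⌋₊ := Nat.le_floor (by exact_mod_cast hX)
  have hsub : {t : Fin k → ℤ | (∀ i, |(t i : ℝ)| ≤ X) ∧ t ∈ {c | Bad j c}} ⊆
      {c : Fin k → ℤ | (∀ i, |c i| ≤ ((⌊X⌋₊ : ℕ) : ℤ)) ∧ Bad j c} := by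
    rintro t ⟨h1, h2⟩
    refine ⟨fun i => ?_, h2⟩
    have h3 : ((t i).natAbs : ℝ) ≤ X := by
      rw [Nat.cast_natAbs]
      push_cast
      exact h1 i
    have h4 : (t i).natAbs ≤ ⌊X⌋₊ := Nat.le_floor h3
    rw [← Int.natCast_natAbs]
    exact_mod_cast h4
  have hfin : {c : Fin k → ℤ | (∀ i, |c i| ≤ ((⌊X⌋₊ : ℕ) : ℤ)) ∧ Bad j c}.Finite := by
    refine (Finset.finite_toSet (Fintype.piFinset fun _ : Fin k => Finset.Icc (-((⌊X⌋₊ : ℕ) : ℤ)) ((⌊X⌋₊ : ℕ) : ℤ))).subset ?_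
    rintro c ⟨hc, -⟩
    rw [Finset.mem_coe, Fintype.mem_piFinset]
    exact fun i => Finset.mem_Icc.2 (abs_le.1 (hc i))
  refine ⟨hfin.subset hsub, ?_⟩
  have hT1 : (1 : ℝ) ≤ (⌊X⌋₊ : ℕ) := by exact_mod_cast hfl
  refine ((Nat.cast_le (α := ℝ)).2 (Set.ncard_le_ncard hsub hfin)).trans ((hC ⌊X⌋₊ hfl).trans ?_)
  refine mul_le_mul (le_abs_self C) ?_ (by positivity) (abs_nonneg C)
  exact Real.rpow_le_rpow (Nat.cast_nonneg _) (Nat.floor_le (by linarith)) (by linarith)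

end Pool.Agent.V1172.PW
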