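import Pool.Agent.H107.MetricFam

/-! Objects with one integer coordinate in residue classes modulo powers of a prime. -/

set_option autoImplicit false

open MeasureTheory Filter Topology

namespace Pool.Agent.V1172.PW

/-- objects with one integer coordinate -/
theorem objs (p : ℕ) [Fact p.Prime] {P : Type*} (co : P → ℤ) {ι : Type*} [Countable ι] (Bad : ι → Set P) {s : ℝ} (hs : 0 ≤ s)
    (h : ∀ j, ∀ ε : ℝ, 0 < ε → ∃ C : ℝ, ∀ X : ℝ, 1 ≤ X → {t : P | t ∈ Bad j ∧ |(co t : ℝ)| ≤ X}.Finite ∧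
      ({t : P | t ∈ Bad j ∧ |(co t : ℝ)| ≤ X}.ncard : ℝ) ≤ C * X ^ (s + ε)) {σ : ℝ} (hσ : 0 < σ) :
    ∃ E : Set ℤ_[p], dimH E ≤ ENNReal.ofReal (s / σ) ∧ ∀ α ∉ E, ∀ j, ∃ T₀ : ℝ, ∀ T ≥ T₀, ∀ t : P,
      |(co t : ℝ)| ≤ T → ‖((co t : ℤ) : ℤ_[p]) - α‖ ≤ T ^ (-σ) → t ∉ Bad j := by
  classical
  set φ : P → ℤ_[p] := fun t => ((co t : ℤ) : ℤ_[p]) with hφ
  set ht : P → ℝ := fun t => max 1 |(co t : ℝ)| with hht
  obtain ⟨E, hE1, hE2⟩ := Pool.Agent.H107.ME.dim_family φ ht (fun t => le_max_left _ _) hs hσ Bad (fun j ε hε => by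
      obtain ⟨C, hC⟩ := h j ε hε
      refine ⟨C, fun X hX => ?_⟩
      obtain ⟨g1, g2⟩ := hC X hX
      have hsub : {t | t ∈ Bad j ∧ ht t ≤ X} ⊆ {t : P | t ∈ Bad j ∧ |(co t : ℝ)| ≤ X} := by
        rintro t ⟨a, b⟩
        exact ⟨a, (le_max_right _ _).trans b⟩
      refine ⟨g1.subset hsub, le_trans ?_ g2⟩
      exact_mod_cast Set.ncard_le_ncard hsub g1)
  have hcount : (Set.range φ).Countable := by
    refine (Set.countable_range (fun t : ℤ => (t : ℤ_[p]))).mono ?_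
    rintro x ⟨t, rfl⟩
    exact ⟨co t, rfl⟩
  refine ⟨E ∪ Set.range φ, ?_, fun α hα j => ?_⟩
  · rw [dimH_union, hcount.dimH_zero]
    exact max_le hE1 bot_le
  rw [Set.mem_union, not_or] at hα
  have hfin := hE2 α hα.1 j
  have hne : ∀ t ∈ {t | t ∈ Bad j ∧ dist (φ t) α ≤ (ht t) ^ (-σ)}, ∀ᶠ T : ℝ in atTop, T ^ (-σ) < dist (φ t) α := by
    intro t _
    have h1 : 0 < dist (φ t) α := dist_pos.2 fun h2 => hα.2 ⟨t, h2⟩
    exact (tendsto_rpow_neg_atTop hσ).eventually (gt_mem_nhds h1)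
  obtain ⟨T₀, hT₀⟩ := eventually_atTop.1 ((Filter.eventually_all_finite hfin).2 hne)
  refine ⟨max T₀ 1, fun T hT t htT htα hexc => ?_⟩
  have hT1 : 1 ≤ T := (le_max_right _ _).trans hT
  have hT0 : 0 < T := by linarith
  have hmem : t ∈ {t | t ∈ Bad j ∧ dist (φ t) α ≤ (ht t) ^ (-σ)} := by
    refine ⟨hexc, ?_⟩
    rw [dist_eq_norm]
    exact htα.trans (Real.rpow_le_rpow_of_nonpos (lt_of_lt_of_le one_pos (le_max_left _ _)) (max_le hT1 htT)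
      (by linarith))
  have h3 := hT₀ T ((le_max_left _ _).trans hT) t hmem
  rw [dist_eq_norm] at h3
  linarith

end Pool.Agent.V1172.PW
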