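import Pool.Agent.H274.Gaps

/-! The number of intervals without primes, from series over prime gaps: the counting step inside
`Pool.Agent.H274.Gaps.windows` (helper274), stated separately; the proof is copied from there. -/

set_option autoImplicit false

open Finset Filter
open Pool.Agent.H274.Gaps

namespace Pool.Agent.V1172.PW

theorem gaps_count {q : ℕ} {B : Set ℕ} {σ γ c : ℝ} (hc : 0 < c)
    (hs : ∀ s : ℝ, σ < s → Summable (B.indicator fun k => (gap k : ℝ) ^ (q + 1) * (p k : ℝ) ^ (-s))) {f w : ℕ → ℕ} {E : Set ℕ}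
    (hσ : 0 ≤ σ) (hρ : 0 ≤ 2 * σ - (q + 1) * γ)
    (h2 : ∀ n ∈ E, 2 ≤ f n) (hf : ∀ n ∈ E, f n ≤ 2 * n ^ 2) (hw : ∀ n ∈ E, c * (n : ℝ) ^ γ ≤ w n)
    (hno : ∀ n ∈ E, ∀ r : ℕ, r.Prime → ¬ (f n < r ∧ r < f n + w n))
    (hdis : ∀ n ∈ E, ∀ n' ∈ E, n < n' → f n + w n ≤ f n') (hB : ∀ n ∈ E, idx (f n) ∈ B) {ε : ℝ} (hε : 0 < ε) :
    ∃ C : ℝ, ∀ X : ℝ, 1 ≤ X → {n | n ∈ E ∧ (n : ℝ) ≤ X}.Finite ∧
      ({n | n ∈ E ∧ (n : ℝ) ≤ X}.ncard : ℝ) ≤ C * X ^ (2 * σ - (q + 1) * γ + ε) := by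
  have hE1 : ∀ n ∈ E, 1 ≤ n := by
    intro n hn
    by_contra hcon
    have h0 : n = 0 := by omega
    have h3 := h2 n hn
    have h4 := hf n hn
    rw [h0] at h4
    simp at h4
    rw [h0] at h3
    omega
  have h3 := summable_exc (q := q) (s := σ + ε / 2) (by linarith) (hs _ (by linarith)) h2 hf hno hdis hB
  have h4 : Summable fun n : E => ((n : ℕ) : ℝ) ^ (-(2 * σ - (q + 1) * γ + ε)) := by
    have h5 := h3.mul_left ((c ^ (q + 1))⁻¹ * 2 ^ (σ + ε / 2))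
    refine Summable.of_nonneg_of_le (fun n => by positivity) (fun n => ?_) h5
    have hn1 : (1 : ℝ) ≤ ((n : ℕ) : ℝ) := by exact_mod_cast hE1 n n.2
    have hn0 : (0 : ℝ) < ((n : ℕ) : ℝ) := by linarith
    have h6 : (2 * ((n : ℕ) : ℝ) ^ 2) ^ (-(σ + ε / 2)) = 2 ^ (-(σ + ε / 2)) * ((n : ℕ) : ℝ) ^ (-(2 * σ + ε)) := by
      rw [Real.mul_rpow (by norm_num) (by positivity), ← Real.rpow_natCast, ← Real.rpow_mul hn0.le]
      congr 2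
      push_cast
      ring
    have h7 : c ^ (q + 1) * ((n : ℕ) : ℝ) ^ ((q + 1) * γ) ≤ (w n : ℝ) ^ (q + 1) := by
      have h8 := pow_le_pow_left₀ (by positivity) (hw n n.2) (q + 1)
      rw [mul_pow] at h8
      have h9 : (((n : ℕ) : ℝ) ^ γ) ^ (q + 1) = ((n : ℕ) : ℝ) ^ (((q : ℝ) + 1) * γ) := by
        rw [← Real.rpow_natCast, ← Real.rpow_mul hn0.le]
        congr 1
        push_cast
        ring
      rwa [h9] at h8
    have h10 : (2 : ℝ) ^ (σ + ε / 2) * 2 ^ (-(σ + ε / 2)) = 1 := by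
      rw [← Real.rpow_add (by norm_num), add_neg_cancel, Real.rpow_zero]
    have hcq : (c ^ (q + 1))⁻¹ * c ^ (q + 1) = 1 := inv_mul_cancel₀ (by positivity)
    have h11 : ((n : ℕ) : ℝ) ^ (-(2 * σ - ((q : ℝ) + 1) * γ + ε)) =
        ((n : ℕ) : ℝ) ^ (((q : ℝ) + 1) * γ) * ((n : ℕ) : ℝ) ^ (-(2 * σ + ε)) := by
      rw [← Real.rpow_add hn0]
      congr 1
      ring
    rw [h6, h11]
    calc ((n : ℕ) : ℝ) ^ (((q : ℝ) + 1) * γ) * ((n : ℕ) : ℝ) ^ (-(2 * σ + ε)) =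
        ((c ^ (q + 1))⁻¹ * c ^ (q + 1)) * ((2 : ℝ) ^ (σ + ε / 2) * 2 ^ (-(σ + ε / 2))) *
          (((n : ℕ) : ℝ) ^ (((q : ℝ) + 1) * γ) * ((n : ℕ) : ℝ) ^ (-(2 * σ + ε))) := by
          rw [hcq, h10]
          ring
      _ = (c ^ (q + 1))⁻¹ * (2 : ℝ) ^ (σ + ε / 2) * (c ^ (q + 1) * ((n : ℕ) : ℝ) ^ (((q : ℝ) + 1) * γ) *
            (2 ^ (-(σ + ε / 2)) * ((n : ℕ) : ℝ) ^ (-(2 * σ + ε)))) := by ring
      _ ≤ (c ^ (q + 1))⁻¹ * (2 : ℝ) ^ (σ + ε / 2) * ((w n : ℝ) ^ (q + 1) *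
            (2 ^ (-(σ + ε / 2)) * ((n : ℕ) : ℝ) ^ (-(2 * σ + ε)))) := by
          refine mul_le_mul_of_nonneg_left (mul_le_mul_of_nonneg_right h7 (by positivity)) (by positivity)
  exact count_exc (by linarith) hE1 h4

end Pool.Agent.V1172.PW
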