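import Mathlib

/-! Counting the exceptions to properties which hold in a range of parameters depending on the object (copied from
`Pool.Agent.V11326.WW`, to avoid its imports). -/

set_option autoImplicit false

open Finset Filter Topology MeasureTheory

namespace Pool.Agent.V1172.PW

lemma finite_abs (K : ℝ) : {k : ℤ | |(k : ℝ)| ≤ K}.Finite := by
  apply (Set.finite_Icc (-⌈K⌉) ⌈K⌉).subset
  intro k hk
  have h1 := abs_le.1 (show |(k : ℝ)| ≤ K from hk)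
  have h2 := Int.le_ceil K
  constructor
  · have : -(⌈K⌉ : ℝ) ≤ k := by linarith
    exact_mod_cast this
  · have : (k : ℝ) ≤ ⌈K⌉ := by linarith
    exact_mod_cast this

lemma ncard_abs {K : ℝ} (hK : 1 ≤ K) : ({k : ℤ | |(k : ℝ)| ≤ K}.ncard : ℝ) ≤ 3 * K := by
  have hK0 : 0 ≤ K := by linarith
  have hsub : {k : ℤ | |(k : ℝ)| ≤ K} ⊆ ((Finset.Icc (-⌊K⌋) ⌊K⌋ : Finset ℤ) : Set ℤ) := by
    intro k hk
    have h1 := abs_le.1 (show |(k : ℝ)| ≤ K from hk)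
    rw [Finset.coe_Icc]
    have h2 : k ≤ ⌊K⌋ := Int.le_floor.2 h1.2
    have h3 : -k ≤ ⌊K⌋ := Int.le_floor.2 (by push_cast; linarith)
    exact ⟨by linarith, h2⟩
  have h1 := Set.ncard_le_ncard hsub (Finset.finite_toSet _)
  rw [Set.ncard_coe_finset, Int.card_Icc] at h1
  have h2 : 0 ≤ ⌊K⌋ := Int.floor_nonneg.2 hK0
  have h3 : (((⌊K⌋ + 1 - -⌊K⌋).toNat : ℕ) : ℝ) = 2 * (⌊K⌋ : ℝ) + 1 := by
    have h4 : (((⌊K⌋ + 1 - -⌊K⌋).toNat : ℕ) : ℤ) = 2 * ⌊K⌋ + 1 := by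
      rw [Int.toNat_of_nonneg (by linarith)]
      ring
    exact_mod_cast h4
  calc ({k : ℤ | |(k : ℝ)| ≤ K}.ncard : ℝ) ≤ (((⌊K⌋ + 1 - -⌊K⌋).toNat : ℕ) : ℝ) := by exact_mod_cast h1
    _ = 2 * (⌊K⌋ : ℝ) + 1 := h3
    _ ≤ 3 * K := by linarith [Int.floor_le K]

/-- `(log y) ^ (C + 1) ≥ (log X) ^ C` if `y ≥ X ^ (1 / 2)` and `X` is large -/
lemma log_pow {C : ℝ} (hC : 0 < C) : ∃ X₁ : ℝ, 1 ≤ X₁ ∧ ∀ X : ℝ, X₁ ≤ X → ∀ y : ℝ, X ^ (1 / 2 : ℝ) ≤ y →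
    Real.log X ^ C ≤ Real.log y ^ (C + 1) := by
  refine ⟨max 1 (Real.exp (2 ^ (C + 1))), le_max_left _ _, fun X hX y hy => ?_⟩
  have hX1 : 1 ≤ X := (le_max_left _ _).trans hX
  have hX0 : 0 < X := by linarith
  have hlX : (2 : ℝ) ^ (C + 1) ≤ Real.log X := by
    rw [Real.le_log_iff_exp_le hX0]
    exact (le_max_right _ _).trans hX
  have hlX0 : 0 < Real.log X := lt_of_lt_of_le (by positivity) hlX
  have h1 : 1 / 2 * Real.log X ≤ Real.log y := by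
    rw [← Real.log_rpow hX0]
    exact Real.log_le_log (by positivity) hy
  have h2 : (1 / 2 * Real.log X) ^ (C + 1) ≤ Real.log y ^ (C + 1) :=
    Real.rpow_le_rpow (by positivity) h1 (by linarith)
  refine le_trans ?_ h2
  rw [Real.mul_rpow (by norm_num) hlX0.le, Real.rpow_add hlX0 C 1, Real.rpow_one]
  have h3 : ((1 : ℝ) / 2) ^ (C + 1) * 2 ^ (C + 1) = 1 := by
    rw [← Real.mul_rpow (by norm_num) (by norm_num)]
    norm_num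
  calc Real.log X ^ C = ((1 : ℝ) / 2) ^ (C + 1) * (Real.log X ^ C * 2 ^ (C + 1)) := by
        rw [mul_comm (Real.log X ^ C), ← mul_assoc, h3, one_mul]
    _ ≤ ((1 : ℝ) / 2) ^ (C + 1) * (Real.log X ^ C * Real.log X) := by
        apply mul_le_mul_of_nonneg_left _ (by positivity)
        exact mul_le_mul_of_nonneg_left hlX (by positivity)

/-- Properties `P D K` of integers `D` and natural numbers `K`. If for all large `N` at most `N ^ (1 - c)` of the `D ≠ 0`,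
`|D| ≤ N`, have `P D K` for some `K` with `(log N) ^ C ≤ K ≤ N ^ c`, then at most `M X ^ (1 - min (c, 1 / 2))` of the
`D ≠ 0`, `|D| ≤ X`, have `P D K` for some `K` with `(log |D|) ^ (C + 1) ≤ K ≤ |D| ^ c`. -/
theorem twist_count {C c : ℝ} (hC : 0 < C) (hc : 0 < c) (N₀ : ℕ) : ∃ M : ℝ, ∀ P : ℤ → ℕ → Prop,
    (∀ N : ℕ, N₀ ≤ N → ({D : ℤ | D ≠ 0 ∧ |D| ≤ N ∧ ∃ K : ℕ, (Real.log N) ^ C ≤ K ∧ (K : ℝ) ≤ (N : ℝ) ^ c ∧
      P D K}.ncard : ℝ) ≤ (N : ℝ) ^ (1 - c)) →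
    ∀ X : ℝ, 1 ≤ X →
      {D : ℤ | D ∈ {D : ℤ | D ≠ 0 ∧ ∃ K : ℕ, (Real.log |(D : ℝ)|) ^ (C + 1) ≤ K ∧ (K : ℝ) ≤ |(D : ℝ)| ^ c ∧
        P D K} ∧ |(D : ℝ)| ≤ X}.Finite ∧
      ({D : ℤ | D ∈ {D : ℤ | D ≠ 0 ∧ ∃ K : ℕ, (Real.log |(D : ℝ)|) ^ (C + 1) ≤ K ∧ (K : ℝ) ≤ |(D : ℝ)| ^ c ∧
        P D K} ∧ |(D : ℝ)| ≤ X}.ncard : ℝ) ≤ M * X ^ (1 - min c (1 / 2)) := by
  obtain ⟨X₁, hX₁1, hX₁⟩ := log_pow hC
  have hm0 : 0 < min c (1 / 2) := lt_min hc (by norm_num)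
  have hm1 : min c (1 / 2) ≤ 1 / 2 := min_le_right _ _
  refine ⟨3 * (X₁ + N₀ + 1) + 4, fun P hP X hX => ?_⟩
  have hX0 : 0 ≤ X := by linarith
  refine ⟨(finite_abs X).subset fun D hD => hD.2, ?_⟩
  by_cases hXX : X₁ + N₀ + 1 ≤ X
  swap
  · -- small `X`
    push Not at hXX
    have h1 : ({D : ℤ | D ∈ {D : ℤ | D ≠ 0 ∧ ∃ K : ℕ, (Real.log |(D : ℝ)|) ^ (C + 1) ≤ K ∧ (K : ℝ) ≤ |(D : ℝ)| ^ c ∧
        P D K} ∧ |(D : ℝ)| ≤ X}.ncard : ℝ) ≤ 3 * X := by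
      refine le_trans ?_ (ncard_abs hX)
      have h0 : {D : ℤ | D ∈ {D : ℤ | D ≠ 0 ∧ ∃ K : ℕ, (Real.log |(D : ℝ)|) ^ (C + 1) ≤ K ∧ (K : ℝ) ≤ |(D : ℝ)| ^ c ∧
        P D K} ∧ |(D : ℝ)| ≤ X} ⊆ {D : ℤ | |(D : ℝ)| ≤ X} := fun D hD => hD.2
      exact_mod_cast Set.ncard_le_ncard h0 (finite_abs X)
    have h2 : 1 ≤ X ^ (1 - min c (1 / 2)) := Real.one_le_rpow hX (by linarith)
    have h3 : 0 ≤ X₁ + N₀ + 1 := by positivity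
    calc _ ≤ 3 * X := h1
      _ ≤ (3 * (X₁ + N₀ + 1) + 4) * 1 := by linarith
      _ ≤ _ := mul_le_mul_of_nonneg_left h2 (by linarith)
  · -- large `X`
    have hN₀ : (0 : ℝ) ≤ N₀ := Nat.cast_nonneg _
    set N : ℕ := ⌊X⌋₊ with hN
    have hNX : (N : ℝ) ≤ X := Nat.floor_le hX0
    have hN1 : N₀ ≤ N := Nat.le_floor (by linarith)
    have hN2 : (1 : ℝ) ≤ N := by
      have : 1 ≤ N := Nat.le_floor (by exact_mod_cast hX)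
      exact_mod_cast this
    have key := hP N hN1
    have hhalf : (1 : ℝ) ≤ X ^ (1 / 2 : ℝ) := Real.one_le_rpow hX (by norm_num)
    have hf1 : {D : ℤ | |(D : ℝ)| ≤ X ^ (1 / 2 : ℝ)}.Finite := finite_abs _
    have hf2 : {D : ℤ | D ≠ 0 ∧ |D| ≤ N ∧ ∃ K : ℕ, (Real.log N) ^ C ≤ K ∧ (K : ℝ) ≤ (N : ℝ) ^ c ∧
        P D K}.Finite := by
      apply (Set.finite_Icc (-(N : ℤ)) N).subset
      intro D hD
      exact abs_le.1 hD.2.1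
    have hsub : {D : ℤ | D ∈ {D : ℤ | D ≠ 0 ∧ ∃ K : ℕ, (Real.log |(D : ℝ)|) ^ (C + 1) ≤ K ∧
        (K : ℝ) ≤ |(D : ℝ)| ^ c ∧ P D K} ∧ |(D : ℝ)| ≤ X} ⊆
        {D : ℤ | |(D : ℝ)| ≤ X ^ (1 / 2 : ℝ)} ∪
        {D : ℤ | D ≠ 0 ∧ |D| ≤ N ∧ ∃ K : ℕ, (Real.log N) ^ C ≤ K ∧ (K : ℝ) ≤ (N : ℝ) ^ c ∧ P D K} := by
      rintro D ⟨⟨hD0, K, hK1, hK2, hPK⟩, hDX⟩
      by_cases hs : |(D : ℝ)| ≤ X ^ (1 / 2 : ℝ)
      · exact Or.inl hs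
      · right
        push Not at hs
        have hDN : |D| ≤ N := by
          have h1 : (D.natAbs : ℝ) ≤ X := by
            rw [Nat.cast_natAbs]
            push_cast
            exact hDX
          have h2 : D.natAbs ≤ N := Nat.le_floor h1
          rw [← Int.natCast_natAbs]
          exact_mod_cast h2
        have hDN' : |(D : ℝ)| ≤ N := by exact_mod_cast hDN
        refine ⟨hD0, hDN, K, ?_, ?_, hPK⟩
        · have h3 := hX₁ X (by linarith) |(D : ℝ)| hs.le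
          have h4 : Real.log N ^ C ≤ Real.log X ^ C := by
            apply Real.rpow_le_rpow (Real.log_nonneg hN2) _ hC.le
            exact Real.log_le_log (by linarith) hNX
          exact (h4.trans h3).trans hK1
        · exact hK2.trans (Real.rpow_le_rpow (abs_nonneg _) hDN' hc.le)
    have h5 := (Set.ncard_le_ncard hsub (hf1.union hf2)).trans (Set.ncard_union_le _ _)
    have h6 : ({D : ℤ | |(D : ℝ)| ≤ X ^ (1 / 2 : ℝ)}.ncard : ℝ) ≤ 3 * X ^ (1 / 2 : ℝ) := ncard_abs hhalf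
    have h7 : X ^ (1 / 2 : ℝ) ≤ X ^ (1 - min c (1 / 2)) := Real.rpow_le_rpow_of_exponent_le hX (by linarith)
    have h8 : (N : ℝ) ^ (1 - c) ≤ X ^ (1 - min c (1 / 2)) := by
      calc (N : ℝ) ^ (1 - c) ≤ (N : ℝ) ^ (1 - min c (1 / 2)) :=
            Real.rpow_le_rpow_of_exponent_le hN2 (by linarith [min_le_left c (1 / 2)])
        _ ≤ X ^ (1 - min c (1 / 2)) := Real.rpow_le_rpow (by linarith) hNX (by linarith)
    have h9 : 0 ≤ X ^ (1 - min c (1 / 2)) := Real.rpow_nonneg hX0 _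
    have h10 : (({D : ℤ | D ∈ {D : ℤ | D ≠ 0 ∧ ∃ K : ℕ, (Real.log |(D : ℝ)|) ^ (C + 1) ≤ K ∧
        (K : ℝ) ≤ |(D : ℝ)| ^ c ∧ P D K} ∧ |(D : ℝ)| ≤ X}.ncard : ℕ) : ℝ) ≤
        ({D : ℤ | |(D : ℝ)| ≤ X ^ (1 / 2 : ℝ)}.ncard : ℝ) +
        ({D : ℤ | D ≠ 0 ∧ |D| ≤ N ∧ ∃ K : ℕ, (Real.log N) ^ C ≤ K ∧ (K : ℝ) ≤ (N : ℝ) ^ c ∧ P D K}.ncard : ℝ) := by
      exact_mod_cast h5
    have h11 : 0 ≤ 3 * (X₁ + N₀ + 1) * X ^ (1 - min c (1 / 2)) := by positivity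
    calc _ ≤ _ := h10
      _ ≤ 3 * X ^ (1 / 2 : ℝ) + (N : ℝ) ^ (1 - c) := add_le_add h6 key
      _ ≤ 4 * X ^ (1 - min c (1 / 2)) := by linarith
      _ ≤ (3 * (X₁ + N₀ + 1) + 4) * X ^ (1 - min c (1 / 2)) := by
          rw [add_mul]
          linarith

/-- Exceptional sets at every scale `N`, and a property `G` of `n` which follows from the property `Q N n` at the scale `N`
if `N ^ (1 / 2) ≤ n ≤ N`. -/
theorem fam_count {κ C : ℝ} (hκ : 0 < κ) (hC : 0 ≤ C) (X₁ : ℝ) (G : ℕ → Prop) (Q : ℕ → ℕ → Prop)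
    (hG : ∀ N n : ℕ, X₁ ≤ N → (N : ℝ) ^ (1 / 2 : ℝ) ≤ n → n ≤ N → Q N n → G n)
    (hQ : ∀ N : ℕ, 1 ≤ N → ∃ E : Finset ℕ, (E.card : ℝ) ≤ C * (N : ℝ) ^ (1 - κ) ∧ ∀ n : ℕ, n ≤ N → n ∉ E → Q N n) :
    ∀ X : ℝ, 1 ≤ X → ({t : ℕ | t ∈ {n : ℕ | ¬ G n} ∧ (t : ℝ) ≤ X}.ncard : ℝ) ≤
      (2 * (|X₁| + 1) + 2 + C) * X ^ (1 - min κ (1 / 2)) := by
  intro X hX
  have hX0 : 0 ≤ X := by linarith
  have hm0 : 0 < min κ (1 / 2) := lt_min hκ (by norm_num)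
  have hm1 : min κ (1 / 2) ≤ 1 / 2 := min_le_right _ _
  have hcount : ∀ Y : ℝ, 1 ≤ Y → ({t : ℕ | (t : ℝ) ≤ Y}.ncard : ℝ) ≤ 2 * Y := by
    intro Y hY
    have hsub : {t : ℕ | (t : ℝ) ≤ Y} ⊆ ((Finset.range (⌊Y⌋₊ + 1) : Finset ℕ) : Set ℕ) := by
      intro t ht
      rw [Finset.coe_range]
      have : t ≤ ⌊Y⌋₊ := Nat.le_floor ht
      exact Nat.lt_succ_of_le this
    have h1 := Set.ncard_le_ncard hsub (Finset.finite_toSet _)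
    rw [Set.ncard_coe_finset, Finset.card_range] at h1
    calc ({t : ℕ | (t : ℝ) ≤ Y}.ncard : ℝ) ≤ ((⌊Y⌋₊ + 1 : ℕ) : ℝ) := by exact_mod_cast h1
      _ ≤ 2 * Y := by
          push_cast
          linarith [Nat.floor_le (show 0 ≤ Y by linarith)]
  have hfinX : {t : ℕ | (t : ℝ) ≤ X}.Finite :=
    (Set.finite_Icc 0 ⌊X⌋₊).subset fun t ht => ⟨Nat.zero_le _, Nat.le_floor ht⟩
  have h9 : 0 ≤ X ^ (1 - min κ (1 / 2)) := Real.rpow_nonneg hX0 _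
  have h2 : 1 ≤ X ^ (1 - min κ (1 / 2)) := Real.one_le_rpow hX (by linarith)
  have hXa : 0 ≤ |X₁| := abs_nonneg _
  by_cases hXX : |X₁| + 1 ≤ X
  swap
  · push Not at hXX
    have h0 : {t : ℕ | t ∈ {n : ℕ | ¬ G n} ∧ (t : ℝ) ≤ X} ⊆ {t : ℕ | (t : ℝ) ≤ X} := fun t ht => ht.2
    have h1 : ({t : ℕ | t ∈ {n : ℕ | ¬ G n} ∧ (t : ℝ) ≤ X}.ncard : ℝ) ≤ 2 * X := by
      refine le_trans ?_ (hcount X hX)
      exact_mod_cast Set.ncard_le_ncard h0 hfinX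
    calc _ ≤ 2 * X := h1
      _ ≤ (2 * (|X₁| + 1) + 2 + C) * 1 := by linarith
      _ ≤ _ := mul_le_mul_of_nonneg_left h2 (by linarith)
  · obtain ⟨N, hN⟩ : ∃ N : ℕ, N = ⌊X⌋₊ := ⟨_, rfl⟩
    have hNX : (N : ℝ) ≤ X := by
      rw [hN]
      exact Nat.floor_le hX0
    have hN1 : X₁ ≤ N := by
      have h3 := Nat.lt_floor_add_one X
      rw [← hN] at h3
      linarith [le_abs_self X₁]
    have hN2' : 1 ≤ N := by
      rw [hN]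
      exact Nat.le_floor (by exact_mod_cast hX)
    have hN2 : (1 : ℝ) ≤ N := by exact_mod_cast hN2'
    obtain ⟨E, hE1, hE2⟩ := hQ N hN2'
    have hhalf : (1 : ℝ) ≤ X ^ (1 / 2 : ℝ) := Real.one_le_rpow hX (by norm_num)
    have hf1 : {t : ℕ | (t : ℝ) ≤ X ^ (1 / 2 : ℝ)}.Finite :=
      (Set.finite_Icc 0 ⌊X ^ (1 / 2 : ℝ)⌋₊).subset fun t ht => ⟨Nat.zero_le _, Nat.le_floor ht⟩
    have hsub : {t : ℕ | t ∈ {n : ℕ | ¬ G n} ∧ (t : ℝ) ≤ X} ⊆ {t : ℕ | (t : ℝ) ≤ X ^ (1 / 2 : ℝ)} ∪ (E : Set ℕ) := by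
      rintro t ⟨ht1, ht2⟩
      by_cases hs : (t : ℝ) ≤ X ^ (1 / 2 : ℝ)
      · exact Or.inl hs
      · right
        push Not at hs
        by_contra htE
        have htN : t ≤ N := by
          rw [hN]
          exact Nat.le_floor ht2
        refine ht1 (hG N t hN1 ?_ htN (hE2 t htN (fun h => htE h)))
        exact (Real.rpow_le_rpow (by linarith) hNX (by norm_num)).trans hs.le
    have h5 := (Set.ncard_le_ncard hsub (hf1.union (Finset.finite_toSet _))).trans (Set.ncard_union_le _ _)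
    rw [Set.ncard_coe_finset] at h5
    have h6 : ({t : ℕ | (t : ℝ) ≤ X ^ (1 / 2 : ℝ)}.ncard : ℝ) ≤ 2 * X ^ (1 / 2 : ℝ) := hcount _ hhalf
    have h7 : X ^ (1 / 2 : ℝ) ≤ X ^ (1 - min κ (1 / 2)) := Real.rpow_le_rpow_of_exponent_le hX (by linarith)
    have h8 : (N : ℝ) ^ (1 - κ) ≤ X ^ (1 - min κ (1 / 2)) := by
      calc (N : ℝ) ^ (1 - κ) ≤ (N : ℝ) ^ (1 - min κ (1 / 2)) :=
            Real.rpow_le_rpow_of_exponent_le hN2 (by linarith [min_le_left κ (1 / 2)])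
        _ ≤ X ^ (1 - min κ (1 / 2)) := Real.rpow_le_rpow (by linarith) hNX (by linarith)
    have h10 : (({t : ℕ | t ∈ {n : ℕ | ¬ G n} ∧ (t : ℝ) ≤ X}.ncard : ℕ) : ℝ) ≤
        ({t : ℕ | (t : ℝ) ≤ X ^ (1 / 2 : ℝ)}.ncard : ℝ) + (E.card : ℝ) := by exact_mod_cast h5
    have h11 : C * (N : ℝ) ^ (1 - κ) ≤ C * X ^ (1 - min κ (1 / 2)) := mul_le_mul_of_nonneg_left h8 hC
    have h12 : 0 ≤ 2 * (|X₁| + 1) * X ^ (1 - min κ (1 / 2)) := by positivity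
    calc _ ≤ _ := h10
      _ ≤ 2 * X ^ (1 / 2 : ℝ) + C * (N : ℝ) ^ (1 - κ) := add_le_add h6 hE1
      _ ≤ 2 * X ^ (1 - min κ (1 / 2)) + C * X ^ (1 - min κ (1 / 2)) := by linarith
      _ ≤ (2 * (|X₁| + 1) + 2 + C) * X ^ (1 - min κ (1 / 2)) := by
          rw [add_mul, add_mul]
          linarith

end Pool.Agent.V1172.PW
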