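import Pool.Agent.H107.MetricFam

/-! Objects with integer coordinates, indexed by a finite type, in residue classes modulo powers of a prime. -/

set_option autoImplicit false

open MeasureTheory Filter Topology

namespace Pool.Agent.V1172.PW

theorem familyF (p : ℕ) [Fact p.Prime] {κ : Type*} [Fintype κ] {P : Type*} (co : P → κ → ℤ) {ι : Type*} [Countable ι]
    (Bad : ι → Set P) {s : ℝ} (hs : 0 ≤ s)
    (h : ∀ j, ∀ ε : ℝ, 0 < ε → ∃ C : ℝ, ∀ X : ℝ, 1 ≤ X → {t : P | (∀ i, |(co t i : ℝ)| ≤ X) ∧ t ∈ Bad j}.Finite ∧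
      ({t : P | (∀ i, |(co t i : ℝ)| ≤ X) ∧ t ∈ Bad j}.ncard : ℝ) ≤ C * X ^ (s + ε)) {σ : ℝ} (hσ : 0 < σ) :
    ∃ E : Set (κ → ℤ_[p]), dimH E ≤ ENNReal.ofReal (s / σ) ∧ ∀ α ∉ E, ∀ j, ∃ T₀ : ℝ, ∀ T ≥ T₀, ∀ t : P,
      (∀ i, |(co t i : ℝ)| ≤ T ∧ ‖((co t i : ℤ) : ℤ_[p]) - α i‖ ≤ T ^ (-σ)) → t ∉ Bad j := by
  classical
  set φ : P → (κ → ℤ_[p]) := fun t i => ((co t i : ℤ) : ℤ_[p]) with hφ
  set ht : P → ℝ := fun t => max 1 ‖fun i => (co t i : ℝ)‖ with hht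
  obtain ⟨E, hE1, hE2⟩ := Pool.Agent.H107.ME.dim_family φ ht (fun t => le_max_left _ _) hs hσ Bad (fun j ε hε => by
      obtain ⟨C, hC⟩ := h j ε hε
      refine ⟨C, fun X hX => ?_⟩
      obtain ⟨g1, g2⟩ := hC X hX
      have hsub : {t | t ∈ Bad j ∧ ht t ≤ X} ⊆ {t : P | (∀ i, |(co t i : ℝ)| ≤ X) ∧ t ∈ Bad j} := by
        rintro t ⟨a, b⟩
        refine ⟨fun i => ?_, a⟩
        have h1 := norm_le_pi_norm (fun i => (co t i : ℝ)) i
        rw [Real.norm_eq_abs] at h1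
        exact h1.trans ((le_max_right _ _).trans b)
      refine ⟨g1.subset hsub, le_trans ?_ g2⟩
      exact_mod_cast Set.ncard_le_ncard hsub g1)
  have hcount : (Set.range φ).Countable := by
    refine (Set.countable_range (fun t : κ → ℤ => fun i => ((t i : ℤ) : ℤ_[p]))).mono ?_
    rintro x ⟨t, rfl⟩
    exact ⟨co t, rfl⟩
  refine ⟨E ∪ Set.range φ, ?_, fun α hα j => ?_⟩
  · rw [dimH_union, hcount.dimH_zero]
    exact max_le hE1 bot_le
  rw [Set.mem_union, not_or] at hα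
  have hfin := hE2 α hα.1 j
  have hne : ∀ t ∈ {t | t ∈ Bad j ∧ dist (φ t) α ≤ (ht t) ^ (-σ)}, ∀ᶠ T : ℝ in atTop, T ^ (-σ) < dist (φ t) α := by
    intro t _
    have h1 : 0 < dist (φ t) α := dist_pos.2 fun h2 => hα.2 ⟨t, h2⟩
    exact (tendsto_rpow_neg_atTop hσ).eventually (gt_mem_nhds h1)
  obtain ⟨T₀, hT₀⟩ := eventually_atTop.1 ((Filter.eventually_all_finite hfin).2 hne)
  refine ⟨max T₀ 1, fun T hT t htT hexc => ?_⟩
  have hT1 : 1 ≤ T := (le_max_right _ _).trans hT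
  have hT0 : 0 < T := by linarith
  have hdist : dist (φ t) α ≤ T ^ (-σ) := by
    rw [dist_pi_le_iff (Real.rpow_nonneg hT0.le _)]
    intro i
    rw [dist_eq_norm]
    exact (htT i).2
  have hle : ht t ≤ T := by
    refine max_le hT1 ?_
    rw [pi_norm_le_iff_of_nonneg hT0.le]
    intro i
    rw [Real.norm_eq_abs]
    exact (htT i).1
  have hmem : t ∈ {t | t ∈ Bad j ∧ dist (φ t) α ≤ (ht t) ^ (-σ)} :=
    ⟨hexc, hdist.trans (Real.rpow_le_rpow_of_nonpos (lt_of_lt_of_le one_pos (le_max_left _ _)) hle (by linarith))⟩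
  have h3 := hT₀ T ((le_max_left _ _).trans hT) t hmem
  linarith

end Pool.Agent.V1172.PW
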